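import Pool.Agent.TH38.CX.Main

/-!
Zero in the spectrum for finite aspherical complexes whose fundamental group `G` acts on a
contractible complex: if, at one place of the spectral sequence of the action with coefficients in
the reduced group `C*`-algebra, the homology of a cell stabiliser does not vanish, and it vanishes
at all places from which or to which a differential could go, then `H_N(G; C*_r(G)) ≠ 0`.
-/

set_option autoImplicit false

namespace Pool.Agent.Results.MP_9f173d_gt.ContractibleActions

open Pool.Agent.H919R4.ZS (FinRes toRed)
open Pool.Agent.TH38.CX (AcyclicGComplex Acyc)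

/-- Let `G` act on the acyclic complex `Y` (of any dimension) with finitely many orbits of cells,
represented by `rep i a`, `a < c i`, and let `X i a` be a finite free resolution for the stabiliser
of `rep i a`. Suppose that `H_(N-i₀)(S; C*_r(S)) ≠ 0` for the stabiliser `S` of some `i₀`-cell,
that the stabilisers of the `i`-cells are acyclic up to degree `N - 1 - i` (or of dimension less
than `N - 1 - i`) for all `i < i₀`, and up to degree `N + 1 - i` (or of dimension less than
`N + 1 - i`) for all `i > i₀`. Then `G` has a finite free resolution, and the homology of every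
such resolution with coefficients in `C*_r(G)` does not vanish in degree `N`. -/
theorem result (G : Type) [Group G] (Y : AcyclicGComplex G) (c : ℕ → ℕ)
    (rep : ∀ i, Fin (c i) → Y.E i)
    (hrep : ∀ i (e : Y.E i), ∃! a, e ∈ MulAction.orbit G (rep i a))
    (X : ∀ i a, FinRes (MulAction.stabilizer G (rep i a)))
    (N i₀ : ℕ) (h0 : i₀ ≤ N) (a₀ : Fin (c i₀))
    (h1 : Nontrivial ((X i₀ a₀).homology (toRed _) (N - i₀)))
    (h2 : ∀ i < i₀, ∀ a, Acyc (X i a) (N - 1 - i))
    (h3 : ∀ i > i₀, i ≤ N + 1 → ∀ a, Acyc (X i a) (N + 1 - i)) :
    Nonempty (FinRes G) ∧ ∀ X' : FinRes G, Nontrivial (X'.homology (toRed G) N) :=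
  Pool.Agent.TH38.CX.main Y c rep hrep X N i₀ h0 a₀ h1 h2 h3

end Pool.Agent.Results.MP_9f173d_gt.ContractibleActions
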