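import Pool.Agent.TH98.ZT.Final

/-!
The zero-in-the-spectrum conjecture for a finite aspherical complex `M` whose fundamental group
has a subgroup with non-zero homology in degree `dim M`, with coefficients in a tempered unitary
representation.

`X : FinRes G` is the cellular chain complex of the universal cover of a finite aspherical
complex `M` with fundamental group `G` (`Pool.Agent.H919R4.ZS.Defs`), `X.len` is the dimension of
`M` and `X.homology (toRed G) i` is `H_i(M; C*_r(G))`. The homology `H_i(C; V)` of a subgroup and
tempered representations are defined in `Pool.Agent.TH98.ZT.Defs`, amenability (the Foelner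
condition) in `Pool.Agent.H496R3.ZS.Stmt`.
-/

set_option autoImplicit false

namespace Pool.Agent.Results.MP_9f173d_gt.TemperedSubgroups

open Pool.Agent.H919R4.ZS (FinRes toRed)
open Pool.Agent.H496R3.ZS (IsAmenable)
open Pool.Agent.TH98.ZT (URep homologyV Tempered)

/-- Let `C` be any subgroup of `G` and let `π` be a unitary representation of `C` on an inner
product space `V`. Suppose that `C` is amenable, or that `π` is weakly contained in the regular
representation of `C`. If `H_n(C; V) ≠ 0`, where `n` is the dimension of `M`, then
`H_i(M; C*_r(G)) ≠ 0` for some `i ≤ n`. -/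
theorem result (G : Type) [Group G] (X : FinRes G) (C : Subgroup G)
    (V : Type) [NormedAddCommGroup V] [InnerProductSpace ℂ V] (π : URep C V)
    (hπ : IsAmenable C ∨ Tempered π) (h : Nontrivial (homologyV X π X.len)) :
    ∃ i ≤ X.len, Nontrivial (X.homology (toRed G) i) :=
  Pool.Agent.TH98.ZT.final G X C V π hπ h

end Pool.Agent.Results.MP_9f173d_gt.TemperedSubgroups
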