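import Pool.Agent.TH254.ZT.Main

/-!
The zero-in-the-spectrum conjecture for a finite aspherical complex `M` and square summable
cycles on the coverings of `M` with amenable fundamental group.

`X : FinRes G` is the cellular chain complex of the universal cover of a finite aspherical
complex `M` with fundamental group `G` (`Pool.Agent.H919R4.ZS.Defs`), `X.len` is the dimension of
`M` and `X.homology (toRed G) i` is `H_i(M; C*_r(G))`. Chains, boundary and cycles are in
`Pool.Agent.TH254.ZT.Defs`, amenability (the Foelner condition) in `Pool.Agent.H496R3.ZS.Stmt`.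
-/

set_option autoImplicit false

namespace Pool.Agent.Results.MP_9f173d_gt.TopDegree

open Pool.Agent.H919R4.ZS (FinRes toRed)
open Pool.Agent.H496R3.ZS (IsAmenable)
open Pool.Agent.TH254.ZT (IsChain IsCycle bdry)

/-- Let `C` be an amenable subgroup of `G` and `χ` a unitary character of `C`. Let `f` be a square
summable `k`-cycle, twisted by `χ`, on the covering `M_C` of `M` with fundamental group `C`. If
`k` is the dimension of `M` and `f ≠ 0`, or if (`k` arbitrary) `f` is not the boundary of a square
summable twisted `(k+1)`-chain, then `H_i(M; C*_r(G)) ≠ 0` for some `i ≤ k`. -/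
theorem result (G : Type) [Group G] (X : FinRes G) (C : Subgroup G) (hC : IsAmenable C)
    (χ : C →* ℂ) (hχ : ∀ c, ‖χ c‖ = 1) (k : ℕ) (f : Fin (X.n k) → G → ℂ)
    (hf : IsChain χ f) (hc : IsCycle X k f)
    (hnb : (k = X.len ∧ f ≠ 0) ∨ ¬ ∃ h, IsChain χ h ∧ bdry X k h = f) :
    ∃ i ≤ k, Nontrivial (X.homology (toRed G) i) :=
  Pool.Agent.TH254.ZT.final X hC χ hχ k f hf hc hnb

end Pool.Agent.Results.MP_9f173d_gt.TopDegree
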